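import Pool.Agent.Run7.h41.NF.Iface

set_option autoImplicit false

namespace Run7.h11.NF

open Run7.h41.NF
open Run7.h955 (Ev Thru Ins am cj)

variable {n : ℕ}

/-- The line `C` crosses `A`. -/
def CrL (C : LL n) (A : Set (FG n)) : Prop :=
  ∃ y, (C : Subgroup (FG n)) = Subgroup.zpowers y ∧ Cr y A

lemma Ev_mono {z : FG n} {A B : Set (FG n)} (h : Ev z A) (hAB : A ⊆ B) : Ev z B :=
  fun x => (h x).mono fun _ hm => hAB hm

lemma Cr_compl {y : FG n} {A : Set (FG n)} (h : Cr y A) : Cr y Aᶜ := by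
  rcases h with h | h
  · right
    refine ⟨h.2, ?_⟩
    rw [inv_inv, compl_compl]
    exact h.1
  · left
    refine ⟨?_, ?_⟩
    · have := h.2
      rwa [inv_inv] at this
    · rw [compl_compl]
      exact h.1

lemma CrL_compl {C : LL n} {A : Set (FG n)} (h : CrL C A) : CrL C Aᶜ := by
  obtain ⟨y, hy, h⟩ := h
  exact ⟨y, hy, Cr_compl h⟩

lemma adj_of {C D : LL n} {A : Set (FG n)} (hA : Wall A) (hC : CrL C A) (hD : CrL D A) :
    C = D ∨ (gL n).Adj C D := by
  by_cases h : C = D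
  · exact Or.inl h
  · right
    obtain ⟨y, hy, hy'⟩ := hC
    obtain ⟨z, hz, hz'⟩ := hD
    unfold gL
    rw [SimpleGraph.fromRel_adj]
    exact ⟨h, Or.inl ⟨y, z, A, A, hy, hz, hA, hA, hy', hz', Or.inl rfl⟩⟩

lemma reach_of {C D : LL n} {A : Set (FG n)} (hA : Wall A) (hC : CrL C A) (hD : CrL D A) :
    (gL n).Reachable C D := by
  rcases adj_of hA hC hD with rfl | h
  · exact SimpleGraph.Reachable.refl _
  · exact h.reachable

/-- The translate of the line of `xx` by `g`. -/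
def Bl (n : ℕ) (g : FG n) : LL n :=
  ⟨Subgroup.zpowers (g * xx n * g⁻¹), MulAut.conj g, by rw [MulAut.conj_apply]⟩

lemma tr_compl (g : FG n) (A : Set (FG n)) : tr g Aᶜ = (tr g A)ᶜ := rfl

lemma Cr_tr (hE : S_EVB) {y : FG n} {A : Set (FG n)} (g : FG n) (h : Cr y A) :
    Cr (g * y * g⁻¹) (tr g A) := by
  obtain ⟨-, -, -, -, -, h6, -⟩ := hE n
  have hinv : (g * y * g⁻¹)⁻¹ = g * y⁻¹ * g⁻¹ := by group
  rcases h with h | h
  · left
    refine ⟨(h6 _ _ _).2 h.1, ?_⟩
    rw [hinv, ← tr_compl, h6]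
    exact h.2
  · right
    rw [hinv]
    refine ⟨(h6 _ _ _).2 h.1, ?_⟩
    have h2 := h.2
    rw [inv_inv] at h2
    have hinv' : (g * y⁻¹ * g⁻¹)⁻¹ = g * y * g⁻¹ := by group
    rw [hinv', ← tr_compl, h6]
    exact h2

theorem t_GRC : S_SH → S_EVB → S_WAL → S_AXI → S_HYP → S_GRC := by
  intro hSH hE hW hA hHYP n
  classical
  obtain ⟨sT, sC, -⟩ := hSH n
  obtain ⟨-, -, -, -, -, wS, -⟩ := hW n
  obtain ⟨-, -, -, -, -, aM, aH0, aH1, -, -, -, -, -, a1, aTh⟩ := hA n
  -- the line of `xx` crosses the walls along its prefixes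
  have hX : ∀ r, r ≤ NN n → Cr (xx n) (Sh (pr n r) (lt n r)) := by
    intro r hr
    left
    have h0 := aTh 0
    have h1 := aTh 1
    refine ⟨Ev_mono h1.1 ?_, Ev_mono h0.2 ?_⟩
    · rw [aH1]
      exact aM r (NN n) hr
    · rw [aH0]
      exact Set.compl_subset_compl.2 (aM 0 r (Nat.zero_le _))
  have hB : ∀ r, r ≤ NN n → ∀ v : FG n, CrL (Bl n (v * (pr n r)⁻¹)) (Sh v (lt n r)) := by
    intro r hr v
    refine ⟨_, rfl, ?_⟩
    have h := Cr_tr hE (v * (pr n r)⁻¹) (hX r hr)
    rw [sT, inv_mul_cancel_right] at h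
    exact h
  have hB2 : ∀ r, r < NN n → ∀ v : FG n, CrL (Bl n (v * (pr n (r + 1))⁻¹)) (Sh v (op (lt n r))) ∧
      CrL (Bl n (v * (pr n (r + 1))⁻¹)) (Sh v (lt n (r + 1))) := by
    intro r hr v
    refine ⟨⟨_, rfl, ?_⟩, hB (r + 1) hr v⟩
    have h := Cr_tr hE (v * (pr n (r + 1))⁻¹) (Cr_compl (hX r hr.le))
    rw [sC, sT] at h
    have e : pr n r * el (lt n r) = pr n (r + 1) := rfl
    rw [e, inv_mul_cancel_right] at h
    exact h
  -- the component at a vertex
  have hgood0 : ∀ (v : FG n) (C : LL n), CrL C (Sh v (lt n 0)) →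
      (gL n).Reachable C (Bl n v) := by
    intro v C hC
    have h := hB 0 (Nat.zero_le _) v
    have e : v * (pr n 0)⁻¹ = v := by
      show v * (1 : FG n)⁻¹ = v
      simp
    rw [e] at h
    exact reach_of (wS v _) hC h
  have hlink : ∀ (v : FG n) (D : LL n) (s t : Lt n), CrL D (Sh v s) → CrL D (Sh v t) →
      (∀ C : LL n, CrL C (Sh v s) → (gL n).Reachable C (Bl n v)) →
      ∀ C : LL n, CrL C (Sh v t) → (gL n).Reachable C (Bl n v) := by
    intro v D s t h1 h2 h3 C hC
    exact (reach_of (wS v t) hC h2).trans (h3 D h1)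
  have hNN : NN n = 2 * (n + 2) := rfl
  have hgood' : ∀ (v : FG n) (i : ℕ), i < n + 2 →
      (∀ C : LL n, CrL C (Sh v (Fin.ofNat (n + 2) i, true)) → (gL n).Reachable C (Bl n v)) ∧
      (∀ C : LL n, CrL C (Sh v (Fin.ofNat (n + 2) i, false)) → (gL n).Reachable C (Bl n v)) := by
    intro v i
    induction i with
    | zero =>
      intro _
      have g1 : ∀ C : LL n, CrL C (Sh v (Fin.ofNat (n + 2) 0, true)) →
          (gL n).Reachable C (Bl n v) := hgood0 v
      refine ⟨g1, ?_⟩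
      obtain ⟨b1, b2⟩ := hB2 0 (by omega) v
      exact hlink v _ _ _ b2 b1 g1
    | succ i ih =>
      intro hi
      obtain ⟨-, ih2⟩ := ih (by omega)
      have g1 : ∀ C : LL n, CrL C (Sh v (Fin.ofNat (n + 2) (i + 1), true)) →
          (gL n).Reachable C (Bl n v) := by
        obtain ⟨b1, b2⟩ := hB2 (2 * i + 1) (by omega) v
        have e1 : op (lt n (2 * i + 1)) = (Fin.ofNat (n + 2) i, false) := by
          unfold op lt
          have : (2 * i + 1) / 2 = i := by omega
          rw [this]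
          rfl
        have e2 : lt n (2 * i + 1 + 1) = (Fin.ofNat (n + 2) (i + 1), true) := by
          unfold lt
          have : (2 * i + 1 + 1) / 2 = i + 1 := by omega
          rw [this]
        rw [e1] at b1
        rw [e2] at b2
        exact hlink v _ _ _ b1 b2 ih2
      refine ⟨g1, ?_⟩
      obtain ⟨b1, b2⟩ := hB2 (2 * (i + 1)) (by omega) v
      have e1 : op (lt n (2 * (i + 1))) = (Fin.ofNat (n + 2) (i + 1), false) := by
        unfold op lt
        have : (2 * (i + 1)) / 2 = i + 1 := by omega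
        rw [this]
        rfl
      have e2 : lt n (2 * (i + 1) + 1) = (Fin.ofNat (n + 2) (i + 1), true) := by
        unfold lt
        have : (2 * (i + 1) + 1) / 2 = i + 1 := by omega
        rw [this]
      rw [e1] at b1
      rw [e2] at b2
      exact hlink v _ _ _ b2 b1 g1
  have hgood : ∀ (v : FG n) (s : Lt n) (C : LL n), CrL C (Sh v s) →
      (gL n).Reachable C (Bl n v) := by
    intro v s C hC
    have e : Fin.ofNat (n + 2) (s.1 : ℕ) = s.1 := by
      ext
      simp [Fin.ofNat, Nat.mod_eq_of_lt s.1.isLt]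
    obtain ⟨g1, g2⟩ := hgood' v s.1 s.1.isLt
    rw [e] at g1 g2
    obtain ⟨i, b⟩ := s
    cases b
    · exact g2 C hC
    · exact g1 C hC
  -- every shadow is crossed by a translate
  have hex : ∀ (v : FG n) (s : Lt n), ∃ g : FG n, CrL (Bl n g) (Sh v s) := by
    intro v s
    obtain ⟨i, b⟩ := s
    have e : lt n (2 * (i : ℕ)) = (i, true) := by
      unfold lt
      have : (2 * (i : ℕ)) / 2 = i := by omega
      rw [this]
      congr 1
      ext
      simp [Fin.ofNat, Nat.mod_eq_of_lt i.isLt]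
    have hi : 2 * (i : ℕ) < NN n := by
      have := i.isLt
      omega
    cases b
    · have h := (hB2 (2 * (i : ℕ)) hi v).1
      rw [e] at h
      exact ⟨_, h⟩
    · have h := hB (2 * (i : ℕ)) hi.le v
      rw [e] at h
      exact ⟨_, h⟩
  have hstep : ∀ (v : FG n) (s : Lt n), (gL n).Reachable (Bl n v) (Bl n (v * el s)) := by
    intro v s
    obtain ⟨g, hg⟩ := hex v s
    have h1 := hgood v s _ hg
    have h2 := CrL_compl hg
    rw [sC] at h2
    exact h1.symm.trans (hgood _ _ _ h2)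
  have hall : ∀ x v : FG n, (gL n).Reachable (Bl n v) (Bl n (v * x)) := by
    intro x
    induction x using FreeGroup.induction_on with
    | C1 => intro v; rw [mul_one]
    | of i => intro v; exact hstep v (i, true)
    | inv_of i _ => intro v; exact hstep v (i, false)
    | mul x y hx hy =>
      intro v
      rw [← mul_assoc]
      exact (hx v).trans (hy (v * x))
  have hcr : ∀ C : LL n, ∃ (v : FG n) (s : Lt n), CrL C (Sh v s) := by
    rintro ⟨C, ψ, rfl⟩
    have hy : ψ (xx n) ≠ 1 := fun h => a1 (by rwa [map_eq_one_iff _ ψ.injective] at h)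
    obtain ⟨v, s, h⟩ := hHYP n _ hy
    exact ⟨v, s, _, rfl, Or.inl h⟩
  have hone : ∀ C : LL n, (gL n).Reachable C (Bl n 1) := by
    intro C
    obtain ⟨v, s, h⟩ := hcr C
    have h1 := hall v 1
    rw [one_mul] at h1
    exact (hgood v s C h).trans h1.symm
  refine ⟨?_, ?_⟩
  · rw [SimpleGraph.connected_iff]
    exact ⟨fun C D => (hone C).trans (hone D).symm, ⟨Bl n 1⟩⟩
  · choose gs hgs using hex 1
    refine ⟨Finset.univ.image fun s => Bl n (gs s), fun C hC => ?_⟩
    obtain ⟨v, s, y, hy, hys⟩ := hcr ⟨C, hC⟩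
    obtain ⟨ψ, hψ⟩ := hC
    have hD : cj v⁻¹ C ∈ LL n := by
      refine ⟨MulAut.conj v⁻¹ * ψ, ?_⟩
      rw [hψ]
      unfold cj
      rw [MonoidHom.map_zpowers]
      rfl
    refine ⟨v⁻¹, ⟨cj v⁻¹ C, hD⟩, rfl, Bl n (gs s), Finset.mem_image.2 ⟨s, Finset.mem_univ _, rfl⟩, ?_⟩
    have hDc : CrL ⟨cj v⁻¹ C, hD⟩ (Sh 1 s) := by
      refine ⟨v⁻¹ * y * v, ?_, ?_⟩
      · show cj v⁻¹ C = _
        have hy' : C = Subgroup.zpowers y := hy
        rw [hy']
        unfold cj
        rw [MonoidHom.map_zpowers]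
        congr 1
        show MulAut.conj v⁻¹ y = _
        rw [MulAut.conj_apply, inv_inv]
      · have h := Cr_tr hE v⁻¹ hys
        rw [sT, inv_mul_cancel, inv_inv] at h
        exact h
    rcases adj_of (wS 1 s) hDc (hgs s) with h | h
    · rw [h, SimpleGraph.dist_self]
      exact Nat.zero_le _
    · rw [SimpleGraph.dist_eq_one_iff_adj.2 h]

end Run7.h11.NF
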