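import Pool.Agent.Run7.h41.NF.Iface

set_option autoImplicit false

namespace Run7.h11.NF

open Run7.h41.NF
open Run7.h955 (Ev Thru Ins am cj)

variable {n : ℕ}

lemma Sub_tr {A B : Set (FG n)} (g : FG n) (h : Sub A B) : Sub (tr g A) (tr g B) := by
  unfold Run7.h41.NF.Sub at *
  refine (h.image (fun x => g * x)).subset ?_
  rintro x ⟨h1, h2⟩
  exact ⟨g⁻¹ * x, ⟨h1, h2⟩, by simp⟩

lemma Ins_mono (hE : S_EVB) {z : FG n} {A B : Set (FG n)} (hz : z ≠ 1) (h : Ins z A)
    (hAB : Sub A B) : Ins z B := by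
  obtain ⟨-, -, -, h4, -⟩ := hE n
  exact ⟨h4 z A B hz h.1 hAB, h4 z⁻¹ A B (inv_ne_one.2 hz) h.2 hAB⟩

lemma Ins_im (hE : S_EVB) (φ : MulAut (FG n)) (z : FG n) (A : Set (FG n)) :
    Ins (φ z) (im φ A) ↔ Ins z A := by
  obtain ⟨-, -, -, -, -, -, h7, -⟩ := hE n
  unfold Run7.h955.Ins
  rw [h7 φ z A, ← map_inv, h7 φ z⁻¹ A]

lemma Sub_of_subset {A B : Set (FG n)} (h : A ⊆ B) : Sub A B := by
  unfold Run7.h41.NF.Sub
  rw [Set.diff_eq_empty.2 h]
  exact Set.finite_empty

lemma zp_inv (ε : ℤ) (hε : ε = 1 ∨ ε = -1) (x : FG n) :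
    Subgroup.zpowers (x ^ ε) = Subgroup.zpowers x := by
  rcases hε with rfl | rfl
  · rw [zpow_one]
  · rw [zpow_neg_one, Subgroup.zpowers_inv]

theorem t_STA : S_EVB → S_WAL → S_AXI → S_POS → S_STA := by
  intro hE hW hA hP n κ hκ s ε hε hs
  obtain ⟨-, -, wC, -, wI, wS, -⟩ := hW n
  obtain ⟨-, -, -, -, -, -, aH0, -, aT, aD, -, -, -, a1, aTh⟩ := hA n
  obtain ⟨-, -, e3, e4, -, -, e7, -⟩ := hE n
  have hεε : ε * ε = 1 := by rcases hε with rfl | rfl <;> norm_num
  set K : ℤ → Set (FG n) := fun j => im s⁻¹ (H n j) with hK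
  have hKm : ∀ j y, y ∈ K j ↔ s y ∈ H n j := by
    intro j y
    simp only [hK, im, Set.mem_ofPred_eq, inv_inv]
  have himK : ∀ j, im s (K j) = H n j := by
    intro j
    ext y
    show s⁻¹ y ∈ K j ↔ _
    rw [hKm, MulAut.apply_inv_self]
  have himKc : ∀ j, im s (K j)ᶜ = (H n j)ᶜ := by
    intro j
    ext y
    show s⁻¹ y ∉ K j ↔ _
    rw [hKm, MulAut.apply_inv_self]
    rfl
  have hKt : ∀ j, tr (xx n ^ (ε * j)) (K 0) = K j := by
    intro j
    ext y
    show (xx n ^ (ε * j))⁻¹ * y ∈ K 0 ↔ _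
    rw [hKm, hKm, map_mul, map_inv, map_zpow, hs, ← zpow_mul]
    have e1 : ε * (ε * j) = j := by rw [← mul_assoc, hεε, one_mul]
    rw [e1]
    have := aT j 0
    rw [add_zero] at this
    rw [← this]
    rfl
  have hKtc : ∀ j, tr (xx n ^ (ε * j)) (K 0)ᶜ = (K j)ᶜ := by
    intro j
    rw [← hKt j]
    rfl
  have hWK : Wall (K 0) := by
    have : Wall (H n 0) := by
      rw [aH0]
      exact wS _ _
    exact wI _ _ this
  -- common part
  have main : ∀ C ∈ LL n, C ≠ Subgroup.zpowers (xx n) → ∃ y : FG n, y ≠ 1 ∧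
      (∀ j, j ≤ κ C → Ins y (H n j)) ∧ (∀ j, Ins y (H n j) → j ≤ κ C) ∧
      (∀ j, j ≤ κ (am s C) → Ins y (K j)) ∧ (∀ j, Ins y (K j) → j ≤ κ (am s C)) ∧
      (∀ j, κ (am s C) + NN n + 3 ≤ j → Ins y (K j)ᶜ) ∧ (∀ j, Ins y (K j)ᶜ → κ (am s C) < j) := by
    rintro C ⟨ψ, rfl⟩ hC
    have hy : ψ (xx n) ≠ 1 := fun h => a1 (by rwa [map_eq_one_iff _ ψ.injective] at h)
    obtain ⟨p1, p2, p3⟩ := hκ ψ hC _ rfl
    have e0 : am s (Subgroup.zpowers (ψ (xx n))) = Subgroup.zpowers ((s * ψ) (xx n)) := by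
      unfold am
      rw [MonoidHom.map_zpowers]
      rfl
    have hne : Subgroup.zpowers ((s * ψ) (xx n)) ≠ Subgroup.zpowers (xx n) := by
      intro h
      apply hC
      have h1 : Subgroup.zpowers (xx n) = am s (Subgroup.zpowers (xx n)) := by
        unfold am
        rw [MonoidHom.map_zpowers]
        show _ = Subgroup.zpowers (s (xx n))
        rw [hs, zp_inv ε hε]
      rw [← e0, h1] at h
      have hinj : Function.Injective (am s) := by
        unfold am
        exact Subgroup.map_injective s.injective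
      exact hinj h
    obtain ⟨r1, r2, r3⟩ := hκ (s * ψ) hne _ rfl
    rw [← e0] at r1 r2 r3
    have hI : ∀ j, Ins ((s * ψ) (xx n)) (H n j) ↔ Ins (ψ (xx n)) (K j) := by
      intro j
      rw [← himK j]
      exact Ins_im hE s _ _
    have hIc : ∀ j, Ins ((s * ψ) (xx n)) (H n j)ᶜ ↔ Ins (ψ (xx n)) (K j)ᶜ := by
      intro j
      rw [← himKc j]
      exact Ins_im hE s _ _
    have hy' : (s * ψ) (xx n) ≠ 1 := by
      intro h
      apply hy
      have : s (ψ (xx n)) = 1 := h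
      rwa [map_eq_one_iff _ s.injective] at this
    refine ⟨ψ (xx n), hy, p1, ?_, ?_, ?_, ?_, ?_⟩
    · intro j hj
      by_contra hlt
      push Not at hlt
      exact p2 (Ins_mono hE hy hj (Sub_of_subset (aD _ _ (by omega))))
    · intro j hj
      exact (hI j).1 (r1 j hj)
    · intro j hj
      by_contra hlt
      push Not at hlt
      exact r2 (Ins_mono hE hy' ((hI j).2 hj) (Sub_of_subset (aD _ _ (by omega))))
    · intro j hj
      exact (hIc j).1 (r3 j hj)
    · intro j hj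
      by_contra hlt
      push Not at hlt
      have h1 := (hI j).1 (r1 j hlt)
      exact e3 _ _ h1.1 hj.1
  rcases hε with hε1 | hε1
  · subst hε1
    have hTh : Thru (xx n) (K 0) := by
      obtain ⟨t1, t2⟩ := aTh 0
      refine ⟨?_, ?_⟩
      · rw [← e7 s, himK, hs, zpow_one]
        exact t1
      · rw [← e7 s, himKc, map_inv, hs, zpow_one]
        exact t2
    obtain ⟨c, hc1, hc2⟩ := hP n (K 0) hWK hTh
    have hj1 : ∀ j, Sub (H n (c + j + 2)) (K j) := by
      intro j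
      have := Sub_tr (xx n ^ (1 * j)) hc1
      rw [hKt j, aT] at this
      convert this using 2
      ring
    have hj2 : ∀ j, Sub (K j) (H n (c + j)) := by
      intro j
      have := Sub_tr (xx n ^ (1 * j)) hc2
      rw [hKt j, aT] at this
      convert this using 2
      ring
    refine ⟨-c, fun C hC hCx => ?_⟩
    obtain ⟨y, hy, q1, q2, q3, q4, q5, q6⟩ := main C hC hCx
    have i1 : κ C - c - 2 ≤ κ (am s C) := by
      apply q4
      refine Ins_mono hE hy (q1 (c + (κ C - c - 2) + 2) (by omega)) (hj1 _)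
    have i2 : c + κ (am s C) ≤ κ C := q2 _ (Ins_mono hE hy (q3 _ le_rfl) (hj2 _))
    rw [abs_le]
    constructor
    · have : (0 : ℤ) ≤ NN n := Int.natCast_nonneg _
      omega
    · have : (0 : ℤ) ≤ NN n := Int.natCast_nonneg _
      omega
  · subst hε1
    have hTh : Thru (xx n) (K 0)ᶜ := by
      obtain ⟨t1, t2⟩ := aTh 0
      refine ⟨?_, ?_⟩
      · rw [← e7 s, himKc, hs, zpow_neg_one]
        exact t2
      · rw [compl_compl, ← e7 s, himK, map_inv, hs, zpow_neg_one, inv_inv]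
        exact t1
    obtain ⟨c, hc1, hc2⟩ := hP n (K 0)ᶜ (wC _ hWK) hTh
    have hj1 : ∀ j, Sub (H n (c + 2 - j)) (K j)ᶜ := by
      intro j
      have := Sub_tr (xx n ^ (-1 * j)) hc1
      rw [hKtc j, aT] at this
      convert this using 2
      ring
    have hj2 : ∀ j, Sub (K j)ᶜ (H n (c - j)) := by
      intro j
      have := Sub_tr (xx n ^ (-1 * j)) hc2
      rw [hKtc j, aT] at this
      convert this using 2
      ring
    refine ⟨c, fun C hC hCx => ?_⟩
    obtain ⟨y, hy, q1, q2, q3, q4, q5, q6⟩ := main C hC hCx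
    have i1 : κ (am s C) < c + 2 - κ C := by
      apply q6
      refine Ins_mono hE hy (q1 (c + 2 - (c + 2 - κ C)) (by omega)) (hj1 _)
    have i2 : c - (κ (am s C) + NN n + 3) ≤ κ C :=
      q2 _ (Ins_mono hE hy (q5 _ le_rfl) (hj2 _))
    rw [abs_le]
    constructor
    · have : (0 : ℤ) ≤ NN n := Int.natCast_nonneg _
      omega
    · have : (0 : ℤ) ≤ NN n := Int.natCast_nonneg _
      omega

end Run7.h11.NF
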